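import Pool.Agent.helper45.BR.Spec

/-!
# Project br: module WKB: weak compactness of bounded functions
-/

set_option autoImplicit false

open Complex Metric Set Filter Topology MeasureTheory MPS Pool.Agent.helper98.ILF
  Pool.Agent.helper16.Multibrot

noncomputable section

namespace BR

/-- limits of bounded sequences along an ultrafilter. -/
lemma WKB_lim (𝒰 : Ultrafilter ℕ) (a : ℕ → ℂ) (B : ℝ) (h : ∀ j, ‖a j‖ ≤ B) :
    ∃ l : ℂ, ‖l‖ ≤ B ∧ Tendsto a 𝒰 (𝓝 l) := by
  obtain ⟨l, hl, hl'⟩ := (isCompact_closedBall (0 : ℂ) B).ultrafilter_le_nhds (𝒰.map a) (by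
    rw [le_principal_iff]
    show closedBall (0 : ℂ) B ∈ Filter.map a 𝒰
    refine Filter.mem_map.mpr (Filter.univ_mem' fun j => ?_)
    show a j ∈ closedBall (0 : ℂ) B
    rw [mem_closedBall_zero_iff]
    exact h j)
  exact ⟨l, by rwa [mem_closedBall_zero_iff] at hl, hl'⟩

lemma WKB_inner (a b : ℂ) : inner ℂ a b = (starRingEnd ℂ) a * b := by
  rw [RCLike.inner_apply, mul_comm]

/-- weak limits in `L²` of a finite measure. -/
lemma WKB_core {α : Type*} [MeasurableSpace α] (κ : Measure α) [IsFiniteMeasure κ]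
    (u : ℕ → α → ℂ) (M : ℝ) (hM : 0 ≤ M) (hu : ∀ j, Measurable (u j)) (hb : ∀ j z, ‖u j z‖ ≤ M)
    (𝒰 : Ultrafilter ℕ) :
    ∃ m : α → ℂ, Measurable m ∧ (∀ᵐ z ∂κ, ‖m z‖ ≤ M) ∧ ∀ y : α → ℂ, MemLp y 2 κ →
      Tendsto (fun j => ∫ z, (starRingEnd ℂ) (u j z) * y z ∂κ) 𝒰
        (𝓝 (∫ z, (starRingEnd ℂ) (m z) * y z ∂κ)) := by
  have hmem : ∀ j, MemLp (u j) 2 κ := fun j =>
    MemLp.of_bound (hu j).aestronglyMeasurable M (Eventually.of_forall (hb j))
  set U : ℕ → Lp ℂ 2 κ := fun j => (hmem j).toLp (u j) with hU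
  have hUae : ∀ j, (U j : α → ℂ) =ᵐ[κ] u j := fun j => (hmem j).coeFn_toLp
  obtain ⟨C, hC0, hC⟩ : ∃ C : ℝ, 0 ≤ C ∧ ∀ j, ‖U j‖ ≤ C := by
    refine ⟨(measureUnivNNReal κ : ℝ) ^ (2 : ENNReal).toReal⁻¹ * M, by positivity, fun j => ?_⟩
    refine Lp.norm_le_of_ae_bound hM ?_
    filter_upwards [hUae j] with z hz
    rw [hz]
    exact hb j z
  have hlim : ∀ y : Lp ℂ 2 κ, ∃ l : ℂ, ‖l‖ ≤ C * ‖y‖ ∧
      Tendsto (fun j => inner ℂ (U j) y) 𝒰 (𝓝 l) := fun y =>
    WKB_lim 𝒰 _ _ fun j => (norm_inner_le_norm _ _).trans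
      (mul_le_mul_of_nonneg_right (hC j) (norm_nonneg _))
  choose L hL1 hL2 using hlim
  let ℓ : Lp ℂ 2 κ →L[ℂ] ℂ := LinearMap.mkContinuous
    { toFun := L
      map_add' := by
        intro y y'
        refine tendsto_nhds_unique (hL2 (y + y')) ?_
        simpa only [inner_add_right] using (hL2 y).add (hL2 y')
      map_smul' := by
        intro c y
        show L (c • y) = c * L y
        refine tendsto_nhds_unique (hL2 (c • y)) ?_
        simpa only [inner_smul_right] using (hL2 y).const_mul c } C hL1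
  set mm : Lp ℂ 2 κ := (InnerProductSpace.toDual ℂ (Lp ℂ 2 κ)).symm ℓ with hmm
  have hm : ∀ y, inner ℂ mm y = L y := fun y => InnerProductSpace.toDual_symm_apply
  -- formula for inner products
  have hin : ∀ (f : Lp ℂ 2 κ) (g y : α → ℂ) (hy : MemLp y 2 κ), (f : α → ℂ) =ᵐ[κ] g →
      inner ℂ f (hy.toLp y) = ∫ z, (starRingEnd ℂ) (g z) * y z ∂κ := by
    intro f g y hy hfg
    rw [L2.inner_def]
    refine integral_congr_ae ?_
    filter_upwards [hfg, hy.coeFn_toLp] with z h1 h2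
    rw [h1, h2, WKB_inner]
  have hT : ∀ y : α → ℂ, MemLp y 2 κ →
      Tendsto (fun j => ∫ z, (starRingEnd ℂ) (u j z) * y z ∂κ) 𝒰
        (𝓝 (∫ z, (starRingEnd ℂ) (mm z) * y z ∂κ)) := by
    intro y hy
    have h1 := hL2 (hy.toLp y)
    rw [← hm, hin mm mm y hy EventuallyEq.rfl] at h1
    refine h1.congr fun j => ?_
    exact hin (U j) (u j) y hy (hUae j)
  have hmeas : Measurable (mm : α → ℂ) := (Lp.stronglyMeasurable mm).measurable
  refine ⟨mm, hmeas, ?_, hT⟩
  -- the bound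
  set A : Set α := {z | M < ‖mm z‖} with hA
  have hAm : MeasurableSet A := measurableSet_lt measurable_const hmeas.norm
  set y : α → ℂ := A.indicator fun z => mm z / (‖mm z‖ : ℂ) with hy
  have hym : Measurable y := (hmeas.div (measurable_ofReal.comp hmeas.norm)).indicator hAm
  have hyb : ∀ z, ‖y z‖ ≤ A.indicator (fun _ => (1 : ℝ)) z := by
    intro z
    by_cases hz : z ∈ A
    · rw [hy, indicator_of_mem hz, indicator_of_mem hz, norm_div, norm_real, norm_norm]
      exact div_self_le_one _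
    · rw [hy, indicator_of_notMem hz, indicator_of_notMem hz, norm_zero]
  have hyL : MemLp y 2 κ := MemLp.of_bound hym.aestronglyMeasurable 1
    (Eventually.of_forall fun z => (hyb z).trans (indicator_le_self' (fun _ _ => zero_le_one) z))
  have h1 := hT y hyL
  have h2 : ∀ j, ‖∫ z, (starRingEnd ℂ) (u j z) * y z ∂κ‖ ≤ M * κ.real A := by
    intro j
    have h3 : ∀ z, ‖(starRingEnd ℂ) (u j z) * y z‖ ≤ A.indicator (fun _ => M) z := by
      intro z
      rw [norm_mul, RCLike.norm_conj]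
      by_cases hz : z ∈ A
      · have := hyb z
        rw [indicator_of_mem hz] at this ⊢
        calc ‖u j z‖ * ‖y z‖ ≤ M * 1 := mul_le_mul (hb j z) this (norm_nonneg _) hM
          _ = M := mul_one M
      · have := hyb z
        rw [indicator_of_notMem hz] at this ⊢
        have h0 : ‖y z‖ = 0 := le_antisymm this (norm_nonneg _)
        rw [h0, mul_zero]
    have h4 : Integrable (A.indicator fun _ => M) κ :=
      (integrable_const M).indicator hAm
    refine (norm_integral_le_of_norm_le h4 (Eventually.of_forall h3)).trans ?_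
    rw [integral_indicator hAm, setIntegral_const, smul_eq_mul, mul_comm]
  have h5 : ‖∫ z, (starRingEnd ℂ) (mm z) * y z ∂κ‖ ≤ M * κ.real A :=
    le_of_tendsto h1.norm (Eventually.of_forall h2)
  have hmI : Integrable (fun z => ‖mm z‖) κ := by
    have h6 : Integrable (mm : α → ℂ) κ := (Lp.memLp mm).integrable (by norm_num)
    exact h6.norm
  have h6 : ∫ z, (starRingEnd ℂ) (mm z) * y z ∂κ = ((∫ z in A, ‖mm z‖ ∂κ : ℝ) : ℂ) := by
    rw [← integral_indicator hAm, ← integral_complex_ofReal]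
    refine integral_congr_ae (Eventually.of_forall fun z => ?_)
    show (starRingEnd ℂ) (mm z) * y z = ((A.indicator (fun z => ‖mm z‖) z : ℝ) : ℂ)
    by_cases hz : z ∈ A
    · rw [hy, indicator_of_mem hz, indicator_of_mem hz]
      have h7 : (‖mm z‖ : ℂ) ≠ 0 := by
        have : 0 < ‖mm z‖ := lt_of_le_of_lt hM hz
        exact_mod_cast this.ne'
      have h8 : (starRingEnd ℂ) (mm z) * mm z = (‖mm z‖ : ℂ) ^ 2 := by
        rw [mul_comm, Complex.mul_conj, Complex.normSq_eq_norm_sq]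
        push_cast
        rfl
      rw [mul_div_assoc', h8]
      field_simp
    · rw [hy, indicator_of_notMem hz, indicator_of_notMem hz, mul_zero, ofReal_zero]
  rw [h6, norm_real, Real.norm_eq_abs] at h5
  have h7 : ∫ z in A, (‖mm z‖ - M) ∂κ ≤ 0 := by
    rw [integral_sub hmI.integrableOn (integrable_const M).integrableOn, setIntegral_const,
      smul_eq_mul]
    have := le_abs_self (∫ z in A, ‖mm z‖ ∂κ)
    linarith [mul_comm M (κ.real A)]
  have h8 : 0 ≤ᵐ[κ.restrict A] fun z => ‖mm z‖ - M := by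
    refine (ae_restrict_iff' hAm).mpr (Eventually.of_forall fun z hz => ?_)
    show 0 ≤ ‖mm z‖ - M
    have : M < ‖mm z‖ := hz
    linarith
  have h9 : ∫ z in A, (‖mm z‖ - M) ∂κ = 0 := le_antisymm h7 (integral_nonneg_of_ae h8)
  rw [integral_eq_zero_iff_of_nonneg_ae h8
    (hmI.integrableOn.sub (integrable_const M).integrableOn)] at h9
  have h10 := (ae_restrict_iff' hAm).mp h9
  filter_upwards [h10] with z hz
  by_contra hcon
  push Not at hcon
  have h11 := hz hcon
  have h12 : ‖mm z‖ - M = 0 := h11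
  linarith

/-- the density. -/
def WKB_w (z : ℂ) : NNReal := Real.toNNReal ((1 + ‖z‖) ^ (-(3 : ℝ)))

lemma WKB_w_pos (z : ℂ) : 0 < (1 + ‖z‖) ^ (-(3 : ℝ)) :=
  Real.rpow_pos_of_pos (by positivity) _

lemma WKB_w_coe (z : ℂ) : ((WKB_w z : NNReal) : ℝ) = (1 + ‖z‖) ^ (-(3 : ℝ)) :=
  Real.coe_toNNReal _ (WKB_w_pos z).le

lemma WKB_w_cont : Continuous fun z : ℂ => (1 + ‖z‖) ^ (-(3 : ℝ)) :=
  (continuous_const.add continuous_norm).rpow_const fun z => Or.inl (by
    have := norm_nonneg z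
    show (1 + ‖z‖ : ℝ) ≠ 0
    linarith)

lemma WKB_w_meas : Measurable WKB_w := WKB_w_cont.measurable.real_toNNReal

/-- the finite measure. -/
def WKB_k : Measure ℂ := volume.withDensity fun z => (WKB_w z : ENNReal)

lemma WKB_k_fin : IsFiniteMeasure WKB_k := by
  have h : Integrable (fun z : ℂ => (1 + ‖z‖) ^ (-(3 : ℝ))) volume := by
    refine integrable_one_add_norm ?_
    rw [Complex.finrank_real_complex]
    norm_num
  exact isFiniteMeasure_withDensity_ofReal h.hasFiniteIntegral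

lemma WKB_int (h : ℂ → ℂ) : ∫ z, h z ∂WKB_k = ∫ z, ((1 + ‖z‖) ^ (-(3 : ℝ)) : ℝ) * h z := by
  unfold WKB_k
  rw [integral_withDensity_eq_integral_smul WKB_w_meas]
  refine integral_congr_ae (Eventually.of_forall fun z => ?_)
  show WKB_w z • h z = (((1 + ‖z‖) ^ (-(3 : ℝ)) : ℝ) : ℂ) * h z
  rw [← WKB_w_coe, NNReal.smul_def, Complex.real_smul]

lemma WKB_ac : (volume : Measure ℂ) ≪ WKB_k := by
  refine withDensity_absolutelyContinuous' (WKB_w_meas.coe_nnreal_ennreal.aemeasurable) ?_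
  refine Eventually.of_forall fun z => ?_
  have h1 : (0 : ℝ) < (WKB_w z : ℝ) := by
    rw [WKB_w_coe]
    exact WKB_w_pos z
  have h2 : WKB_w z ≠ 0 := by
    intro h0
    rw [h0] at h1
    simp at h1
  exact_mod_cast h2

theorem WKB : WKB_stmt := by
  intro u M hM hu hb
  obtain ⟨𝒰, h𝒰⟩ := Ultrafilter.exists_le (atTop : Filter ℕ)
  have := WKB_k_fin
  obtain ⟨m, hm1, hm2, hm3⟩ := WKB_core WKB_k u M hM hu hb 𝒰
  refine ⟨𝒰, fun z => if ‖m z‖ ≤ M then m z else 0, h𝒰,
    Measurable.ite (measurableSet_le hm1.norm measurable_const) hm1 measurable_const, ?_, ?_⟩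
  · intro z
    show ‖(if ‖m z‖ ≤ M then m z else 0 : ℂ)‖ ≤ M
    split_ifs with h
    · exact h
    · rwa [norm_zero]
  intro φ hφ hφc
  -- the test function
  set y : ℂ → ℂ := fun z => (starRingEnd ℂ) (φ z) / (((1 + ‖z‖) ^ (-(3 : ℝ)) : ℝ) : ℂ) with hy
  have hyc : Continuous y := by
    refine (Complex.continuous_conj.comp hφ).div (Complex.continuous_ofReal.comp WKB_w_cont) ?_
    intro z
    exact_mod_cast (WKB_w_pos z).ne'
  have hys : HasCompactSupport y := by
    refine hφc.mono ?_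
    intro z hz
    rw [Function.mem_support] at hz ⊢
    intro h0
    apply hz
    show (starRingEnd ℂ) (φ z) / _ = 0
    rw [h0, map_zero, zero_div]
  have hyL : MemLp y 2 WKB_k := hyc.memLp_of_hasCompactSupport hys
  have h1 := hm3 y hyL
  have hkey : ∀ g : ℂ → ℂ, ∫ z, (starRingEnd ℂ) (g z) * y z ∂WKB_k =
      (starRingEnd ℂ) (∫ z, g z * φ z) := by
    intro g
    rw [WKB_int, ← integral_conj]
    refine integral_congr_ae (Eventually.of_forall fun z => ?_)
    show (((1 + ‖z‖) ^ (-(3 : ℝ)) : ℝ) : ℂ) * ((starRingEnd ℂ) (g z) *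
      ((starRingEnd ℂ) (φ z) / (((1 + ‖z‖) ^ (-(3 : ℝ)) : ℝ) : ℂ))) = (starRingEnd ℂ) (g z * φ z)
    have hw : (((1 + ‖z‖) ^ (-(3 : ℝ)) : ℝ) : ℂ) ≠ 0 := by exact_mod_cast (WKB_w_pos z).ne'
    rw [map_mul]
    field_simp
  have h2 : Tendsto (fun j => ∫ z, u j z * φ z) 𝒰 (𝓝 (∫ z, m z * φ z)) := by
    have h3 := (Complex.continuous_conj.tendsto _).comp h1
    rw [hkey m, Complex.conj_conj] at h3
    refine h3.congr fun j => ?_
    show (starRingEnd ℂ) (∫ z, (starRingEnd ℂ) (u j z) * y z ∂WKB_k) = _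
    rw [hkey (u j), Complex.conj_conj]
  have h4 : ∫ z, (if ‖m z‖ ≤ M then m z else 0 : ℂ) * φ z = ∫ z, m z * φ z := by
    refine integral_congr_ae ?_
    filter_upwards [WKB_ac.ae_le hm2] with z hz
    rw [if_pos hz]
  rw [h4]
  exact h2

end BR
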